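import Pool.Agent.Lib.QU62.A1

/-!
# Gabber's theorem in dimension three: the definitions

`K` is a noetherian local domain, `u` a prime of `K`, `R = K ⧸ (u)` (as a `K`-algebra), and
`x, y : K` are parameters of `R` (`Two R x y`).
-/

set_option autoImplicit false
set_option linter.unusedSectionVars false

namespace Pool.Agent.QU62

open IsLocalRing

universe u w

/-- The submodule `Y` has finite colength in every direction: powers of `x` and of `y` carry every
vector into `Y`. -/
def Cof {K : Type u} [CommRing K] (x y : K) {B : Type w} [AddCommGroup B] [Module K B]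
    (Y : Submodule K B) : Prop :=
  ∀ f : B, ∃ N : ℕ, x ^ N • f ∈ Y ∧ y ^ N • f ∈ Y

/-- The setting: `K` a noetherian local domain, `u` a prime, `R` the quotient `K ⧸ (u)`, with
parameters `x, y`. -/
structure Ctx (K R : Type u) [CommRing K] [IsDomain K] [IsNoetherianRing K] [IsLocalRing K]
    [CommRing R] [IsDomain R] [IsNoetherianRing R] [IsLocalRing R] [Algebra K R]
    (u x y : K) : Prop where
  pu : Prime u
  surj : Function.Surjective (algebraMap K R)
  ker : ∀ c : K, algebraMap K R c = 0 ↔ u ∣ c
  two : Two R (algebraMap K R x) (algebraMap K R y)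
  max : maximalIdeal K = Ideal.span {u, x, y}

/-- `u` is regular on `M`, and `M ⧸ u M` is torsion-free over `K ⧸ (u)`. -/
structure TF {K : Type u} [CommRing K] (u : K) (M : Type w) [AddCommGroup M] [Module K M] :
    Prop where
  reg : ∀ m : M, u • m = 0 → m = 0
  tf : ∀ (c : K) (m m' : M), ¬ u ∣ c → c • m = u • m' → ∃ m'', m = u • m''

/-- `φ : M → R ^ n` is an embedding of `M ⧸ u M` of finite colength, the colength being `ℓ`. -/
structure Dat {K R : Type u} [CommRing K] [CommRing R] [Algebra K R] (u x y : K)
    (M : Type w) [AddCommGroup M] [Module K M] (n : ℕ) (φ : M →ₗ[K] (Fin n → R)) : Prop where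
  ker : ∀ m, φ m = 0 → ∃ m', m = u • m'
  cof : Cof x y (LinearMap.range φ)

/-- The colength. -/
noncomputable def colen {K R : Type u} [CommRing K] [CommRing R] [Algebra K R]
    {M : Type w} [AddCommGroup M] [Module K M] {n : ℕ} (φ : M →ₗ[K] (Fin n → R)) : ℕ∞ :=
  Module.length K ((Fin n → R) ⧸ LinearMap.range φ)

end Pool.Agent.QU62
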