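import Pool.Agent.Lib.QU62.D
import Pool.Agent.Lib.QU53.G
import Pool.Agent.Lib.QU52.Fibre3

/-!
# Gabber's theorem in dimension three

`K` a noetherian local domain, `u` a prime of `K` such that `K ⧸ (u)` is regular of dimension two:
finitely generated projective modules over `K[1/u]` are free.
-/

set_option autoImplicit false

namespace Pool.Agent.QU62

open IsLocalRing

universe u

/-- **Gabber's theorem.** -/
theorem gabber (K : Type u) [CommRing K] [IsDomain K] [IsNoetherianRing K] [IsLocalRing K]
    (u x y : K) (hu : Prime u) (hx : Prime (Ideal.Quotient.mk (Ideal.span {u}) x))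
    (hy : ¬ Ideal.Quotient.mk (Ideal.span {u}) x ∣ Ideal.Quotient.mk (Ideal.span {u}) y)
    (hm : maximalIdeal K = Ideal.span {u, x, y}) : QU53.PF (Localization.Away u) :=
  QU53.gabber_of (fun _ _ _ _ _ _ _ _ _ _ _ _ _ _ h M _ _ _ hM k hp => exists_HB h M hM k hp)
    K u x y hu hx hy hm

/-- Power series over a complete regular local ring of dimension three. -/
theorem three_dim {S : Type u} [CommRing S] [IsRegularLocalRing S]
    [IsAdicComplete (maximalIdeal S) S] (hd : ringKrullDim S = 3) (n : ℕ) (r : S)
    (hr : r ∈ maximalIdeal S) (hr2 : r ∉ maximalIdeal S ^ 2) :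
    QU53.PF (Localization.Away (MvPowerSeries.C r : MvPowerSeries (Fin n) S)) :=
  QU52.three_dim_of hd n r hr hr2 fun K _ _ _ _ u x y h1 h2 h3 h4 => gabber K u x y h1 h2 h3 h4

end Pool.Agent.QU62
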