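import Pool.Agent.Lib.QU52.Fib
import Pool.Agent.Lib.QU53.RankRed
import Pool.Agent.Lib.QU77.Dim
import Pool.Agent.Lib.QU74.Stab
import Pool.Agent.Lib.QU77.SR

/-!
# Modules of rank at least the dimension of the base
-/

set_option autoImplicit false

namespace Pool.Agent.QU62

open IsLocalRing QU53

universe u

/-- Rank of a stably free module over a domain. -/
theorem finrank_stably {A : Type u} [CommRing A] [IsDomain A] {P : Type u} [AddCommGroup P]
    [Module A P] [Module.Finite A P] {s t : ℕ} (e : (P × (Fin s → A)) ≃ₗ[A] (Fin t → A)) :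
    Module.finrank A P + s = t := by
  have h1 : Module.rank A (P × (Fin s → A)) = t := by
    rw [e.rank_eq, rank_fun', Fintype.card_fin]
  have h2 := LinearMap.rank_range_add_rank_ker (LinearMap.snd A P (Fin s → A))
  rw [LinearMap.range_eq_top.2 LinearMap.snd_surjective, rank_top, rank_fun', Fintype.card_fin, h1] at h2
  have h3 : Module.rank A (LinearMap.ker (LinearMap.snd A P (Fin s → A))) = Module.rank A P := by
    refine LinearEquiv.rank_eq ?_
    exact
      { toFun := fun v => v.1.1
        map_add' := fun _ _ => rfl
        map_smul' := fun _ _ => rfl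
        invFun := fun p => ⟨(p, 0), rfl⟩
        left_inv := fun v => Subtype.ext (Prod.ext rfl (LinearMap.mem_ker.1 v.2).symm)
        right_inv := fun _ => rfl }
  rw [h3] at h2
  have h4 : (Module.finrank A P : Cardinal.{u}) = Module.rank A P :=
    Module.finrank_eq_rank A P
  rw [← h4] at h2
  have h5 : ((s + Module.finrank A P : ℕ) : Cardinal.{u}) = (t : ℕ) := by
    rw [← h2]
    push_cast
    rfl
  have h6 : s + Module.finrank A P = t := by exact_mod_cast h5
  omega

/-- Inverting a unit of a local ring. -/
theorem pf_of_isUnit {R : Type u} [CommRing R] [IsLocalRing R] (r : R) (hr : IsUnit r) :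
    PF (Localization.Away r) := by
  intro P _ _ _ _
  have hM : Submonoid.powers r ≤ IsUnit.submonoid R := by
    rintro _ ⟨k, rfl⟩
    exact hr.pow k
  let e : R ≃ₐ[R] Localization.Away r := IsLocalization.atUnits R (Submonoid.powers r) hM
  have hl : IsLocalRing (Localization.Away r) := e.toRingEquiv.isLocalRing
  exact Module.free_of_flat_of_isLocalRing

/-- Projective modules of rank at least `dim K` over `K[1/r]`, `K` regular local, are free. -/
theorem free_of_rank {K : Type u} [CommRing K] [IsRegularLocalRing K] {d : ℕ}
    (hd : ringKrullDim K = d) (r : K) (hr : r ∈ maximalIdeal K) (hr0 : r ≠ 0) (Q : Type u)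
    [AddCommGroup Q] [Module (Localization.Away r) Q] [Module.Finite (Localization.Away r) Q]
    [Module.Projective (Localization.Away r) Q]
    (h : d ≤ Module.finrank (Localization.Away r) Q) : Module.Free (Localization.Away r) Q := by
  have hdom : IsDomain K := BEH5.Reg.isDomain_of_regular d K hd
  have hA : IsDomain (Localization.Away r) := IsLocalization.isDomain_localization
    (powers_le_nonZeroDivisors_of_noZeroDivisors hr0)
  have hN : IsNoetherianRing (Localization.Away r) :=
    IsLocalization.isNoetherianRing (Submonoid.powers r) _ inferInstance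
  have hdim := QU77.dim_away hd.le r hr
  obtain ⟨s, hs⟩ := QU74.stably_free hr0 (Localization.Away r) Q
  have e := (Module.finBasis (Localization.Away r) (Q × (Fin s → Localization.Away r))).equivFun
  set t := Module.finrank (Localization.Away r) (Q × (Fin s → Localization.Away r)) with ht
  have hst := finrank_stably e
  rcases Nat.eq_zero_or_pos d with h0 | h0
  · subst h0
    exfalso
    have h1 : (0 : WithBot ℕ∞) ≤ ringKrullDim (Localization.Away r) := ringKrullDim_nonneg_of_nontrivial
    have h2 : ringKrullDim (Localization.Away r) + 1 ≤ (0 : WithBot ℕ∞) := by exact_mod_cast hdim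
    have h3 : (0 : WithBot ℕ∞) + 1 ≤ 0 := (add_le_add_left h1 1).trans h2
    exact absurd h3 (by decide)
  · obtain ⟨D, rfl⟩ : ∃ D, d = D + 1 := ⟨d - 1, by omega⟩
    refine QU77.free_of_stably D ?_ e (by omega)
    have h2 : ringKrullDim (Localization.Away r) + 1 ≤ (D : WithBot ℕ∞) + 1 := by
      exact_mod_cast hdim
    revert h2
    generalize ringKrullDim (Localization.Away r) = δ
    intro h2
    cases δ with
    | bot => exact bot_le
    | coe δ =>
      have h3 : δ + 1 ≤ (D : ℕ∞) + 1 := by exact_mod_cast h2
      have h4 : δ ≤ (D : ℕ∞) := by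
        rwa [ENat.add_le_add_iff_right (by simp)] at h3
      exact_mod_cast h4

/-- **Every dimension.** For a complete regular local ring `S` of dimension `d`, `r ≠ 0` in `S` and
any number of variables, projective modules of rank at least `d` over
`S⟦z_1, …, z_n⟧[1/r]` are free. -/
theorem rank_ge_dim {S : Type u} [CommRing S] [IsRegularLocalRing S]
    [IsAdicComplete (maximalIdeal S) S] {d : ℕ} (hd : ringKrullDim S = d) (n : ℕ) (r : S)
    (hr : r ≠ 0) (P : Type u) [AddCommGroup P]
    [Module (Localization.Away (MvPowerSeries.C r : MvPowerSeries (Fin n) S)) P]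
    [Module.Finite (Localization.Away (MvPowerSeries.C r : MvPowerSeries (Fin n) S)) P]
    [Module.Projective (Localization.Away (MvPowerSeries.C r : MvPowerSeries (Fin n) S)) P]
    (h : d ≤ Module.finrank (Localization.Away (MvPowerSeries.C r : MvPowerSeries (Fin n) S)) P) :
    Module.Free (Localization.Away (MvPowerSeries.C r : MvPowerSeries (Fin n) S)) P := by
  classical
  have hdom : IsDomain S := BEH5.Reg.isDomain_of_regular d S hd
  have hp : ((maximalIdeal S).map (MvPowerSeries.C (σ := Fin n) (R := S))).IsPrime :=
    prime_mapC _ n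
  by_cases hru : IsUnit r
  · have hloc : IsLocalRing (MvPowerSeries (Fin n) S) := inferInstance
    exact pf_of_isUnit _ (hru.map MvPowerSeries.C) P inferInstance inferInstance
  have hrm : r ∈ maximalIdeal S := (mem_maximalIdeal r).2 hru
  refine reduction_rank r hr n ?_ P inferInstance inferInstance h
  intro Q _ _ hfin hproj hQ
  obtain ⟨_, hreg, hdim⟩ := QU52.fibre_regular hd n
  have hrK : algebraMap (MvPowerSeries (Fin n) S)
      (Localization.AtPrime ((maximalIdeal S).map (MvPowerSeries.C (σ := Fin n) (R := S))))
      (MvPowerSeries.C r) ∈ maximalIdeal (Localization.AtPrime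
        ((maximalIdeal S).map (MvPowerSeries.C (σ := Fin n) (R := S)))) :=
    (IsLocalization.AtPrime.to_map_mem_maximal_iff _
      ((maximalIdeal S).map (MvPowerSeries.C (σ := Fin n) (R := S))) _).2
      (Ideal.mem_map_of_mem _ hrm)
  have hrK0 : algebraMap (MvPowerSeries (Fin n) S)
      (Localization.AtPrime ((maximalIdeal S).map (MvPowerSeries.C (σ := Fin n) (R := S))))
      (MvPowerSeries.C r) ≠ 0 := by
    have hR : IsDomain (MvPowerSeries (Fin n) S) := isDomain_mv S n
    intro h0
    have h1 := IsLocalization.injective (Localization.AtPrime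
      ((maximalIdeal S).map (MvPowerSeries.C (σ := Fin n) (R := S))))
      (Ideal.primeCompl_le_nonZeroDivisors
        ((maximalIdeal S).map (MvPowerSeries.C (σ := Fin n) (R := S)))) (h0.trans (map_zero _).symm)
    exact hr (MvPowerSeries.C_injective (h1.trans (map_zero _).symm))
  exact free_of_rank hdim _ hrK hrK0 Q hQ

end Pool.Agent.QU62
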