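import Pool.Agent.Lib.QU53.R5

/-!
# Modules over a two-dimensional local ring

`Two R x y`: `R` is a local ring, `x` is prime, `x` does not divide `y`, and `(x, y)` is the
maximal ideal.
-/

set_option autoImplicit false
set_option linter.unusedSectionVars false

namespace Pool.Agent.QU62

open IsLocalRing Pointwise

universe u w

/-- `x, y` are parameters of the two-dimensional local ring `R`. -/
structure Two (R : Type u) [CommRing R] [IsLocalRing R] (x y : R) : Prop where
  px : Prime x
  ndvd : ¬ x ∣ y
  max : maximalIdeal R = Ideal.span {x, y}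

section two

variable {R : Type u} [CommRing R] [IsDomain R] [IsNoetherianRing R] [IsLocalRing R] {x y : R}

namespace Two

theorem y_mem (h : Two R x y) : y ∈ maximalIdeal R := by
  rw [h.max]
  exact Ideal.subset_span (by simp)

theorem x_mem (h : Two R x y) : x ∈ maximalIdeal R := by
  rw [h.max]
  exact Ideal.subset_span (by simp)

theorem pow_ndvd (h : Two R x y) (n : ℕ) : ¬ x ∣ y ^ n := fun hd => h.ndvd (h.px.dvd_of_dvd_pow hd)

/-- A common divisor of powers of `x` and `y` is a unit. -/
theorem isUnit_of_dvd (h : Two R x y) {b : R} {m n : ℕ} (h1 : b ∣ x ^ m) (h2 : b ∣ y ^ n) :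
    IsUnit b := by
  obtain ⟨i, hi, hb⟩ := (dvd_prime_pow h.px m).1 h1
  rcases Nat.eq_zero_or_pos i with h0 | h0
  · rw [h0, pow_zero] at hb
    exact hb.symm.isUnit isUnit_one
  · exfalso
    apply h.pow_ndvd n
    have h3 : x ^ i ∣ y ^ n := hb.symm.dvd.trans h2
    exact (dvd_pow_self x (by omega)).trans h3

/-- `x ^ n` divides `c` when it divides `y ^ m * c`. -/
theorem dvd_of_dvd_mul (h : Two R x y) {c : R} {m n : ℕ} (h1 : x ^ n ∣ y ^ m * c) : x ^ n ∣ c :=
  h.px.pow_dvd_of_dvd_mul_left n (h.pow_ndvd m) h1

theorem pidq (h : Two R x y) : IsDomain (R ⧸ Ideal.span {x}) := by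
  have : (Ideal.span {x}).IsPrime := (Ideal.span_singleton_prime h.px.ne_zero).2 h.px
  exact Ideal.Quotient.isDomain _

theorem localq (h : Two R x y) : IsLocalRing (R ⧸ Ideal.span {x}) := by
  have := h.pidq
  exact IsLocalRing.of_surjective' (Ideal.Quotient.mk _) Ideal.Quotient.mk_surjective

theorem pid (h : Two R x y) : IsPrincipalIdealRing (R ⧸ Ideal.span {x}) := by
  have := h.pidq
  have := h.localq
  have hmax : maximalIdeal (R ⧸ Ideal.span {x}) =
      Ideal.span {Ideal.Quotient.mk (Ideal.span {x}) y} := by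
    have h9 : (maximalIdeal R).map (Ideal.Quotient.mk (Ideal.span {x})) =
        maximalIdeal (R ⧸ Ideal.span {x}) :=
      map_maximalIdeal_of_surjective _ Ideal.Quotient.mk_surjective
    rw [← h9, h.max, Ideal.map_span, Set.image_insert_eq, Set.image_singleton]
    have h0 : Ideal.Quotient.mk (Ideal.span {x}) x = 0 :=
      Ideal.Quotient.eq_zero_iff_mem.2 (Ideal.mem_span_singleton_self _)
    rw [Ideal.span_insert, h0, Ideal.span_singleton_eq_bot.2 rfl, bot_sup_eq]
  have hprin : (maximalIdeal (R ⧸ Ideal.span {x})).IsPrincipal := ⟨⟨_, hmax⟩⟩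
  exact ((tfae_of_isNoetherianRing_of_isLocalRing_of_isDomain (R ⧸ Ideal.span {x})).out 0 4).2 hprin

/-- Nonzero elements modulo `x` are powers of `y` times units. -/
theorem exists_pow (h : Two R x y) {c : R} (hc : ¬ x ∣ c) :
    ∃ (n : ℕ) (a d : R), IsUnit a ∧ c = y ^ n * a + x * d := by
  by_contra hcon
  push Not at hcon
  have key : ∀ n : ℕ, ∃ a d, c = y ^ n * a + x * d := by
    intro n
    induction n with
    | zero => exact ⟨c, 0, by ring⟩
    | succ n ih =>
      obtain ⟨a, d, had⟩ := ih
      have ha : ¬ IsUnit a := fun hu => hcon n a d hu had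
      have ha2 : a ∈ maximalIdeal R := (mem_maximalIdeal a).2 ha
      rw [h.max, Ideal.mem_span_pair] at ha2
      obtain ⟨s, t, hst⟩ := ha2
      exact ⟨t, d + y ^ n * s, by rw [had, ← hst]; ring⟩
  have hp : (Ideal.span {x}).IsPrime := (Ideal.span_singleton_prime h.px.ne_zero).2 h.px
  have := h.pidq
  have hl := h.localq
  have h1 : Ideal.Quotient.mk (Ideal.span {x}) c ∈
      ⨅ n : ℕ, (maximalIdeal (R ⧸ Ideal.span {x})) ^ n := by
    rw [Ideal.mem_iInf]
    intro n
    obtain ⟨a, d, had⟩ := key n
    have h2 : Ideal.Quotient.mk (Ideal.span {x}) c =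
        (Ideal.Quotient.mk (Ideal.span {x}) y) ^ n * Ideal.Quotient.mk (Ideal.span {x}) a := by
      rw [had, map_add, map_mul, map_pow, map_mul]
      have h0 : Ideal.Quotient.mk (Ideal.span {x}) x = 0 :=
        Ideal.Quotient.eq_zero_iff_mem.2 (Ideal.mem_span_singleton_self _)
      rw [h0, zero_mul, add_zero]
    rw [h2]
    refine Ideal.mul_mem_right _ _ (Ideal.pow_mem_pow ?_ n)
    have h9 : (maximalIdeal R).map (Ideal.Quotient.mk (Ideal.span {x})) =
        maximalIdeal (R ⧸ Ideal.span {x}) :=
      map_maximalIdeal_of_surjective _ Ideal.Quotient.mk_surjective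
    rw [← h9]
    exact Ideal.mem_map_of_mem _ h.y_mem
  rw [Ideal.iInf_pow_eq_bot_of_isDomain _ (maximalIdeal.isMaximal _).ne_top, Ideal.mem_bot,
    Ideal.Quotient.eq_zero_iff_mem, Ideal.mem_span_singleton] at h1
  exact hc h1

/-- **A1.** Depth two implies free. -/
theorem free (h : Two R x y) {X : Type w} [AddCommGroup X] [Module R X] [Module.Finite R X]
    (h1 : ∀ v : X, x • v = 0 → v = 0) (h2 : ∀ f g : X, y • f = x • g → ∃ v, f = x • v) :
    Module.Free R X := by
  have := h.pidq
  have := h.pid
  have hreg : IsSMulRegular X x := by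
    intro v w hvw
    have h3 : x • (v - w) = 0 := by
      rw [smul_sub, sub_eq_zero]
      exact hvw
    exact sub_eq_zero.1 (h1 _ h3)
  have := Module.finitePresentation_of_finite R X
  refine (Module.free_quotSMulTop_iff_free R X ?_ hreg).1 ?_
  · exact (maximalIdeal_le_jacobson _) h.x_mem
  · have hfin : Module.Finite (R ⧸ Ideal.span {x}) (QuotSMulTop x X) :=
      Module.Finite.of_restrictScalars_finite R (R ⧸ Ideal.span {x}) (QuotSMulTop x X)
    have htf : Module.IsTorsionFree (R ⧸ Ideal.span {x}) (QuotSMulTop x X) := by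
      refine Module.IsTorsionFree.of_smul_eq_zero ?_
      intro c v hcv
      obtain ⟨c, rfl⟩ := Ideal.Quotient.mk_surjective c
      obtain ⟨v, rfl⟩ := Submodule.Quotient.mk_surjective _ v
      by_cases hc : x ∣ c
      · left
        exact Ideal.Quotient.eq_zero_iff_mem.2 (Ideal.mem_span_singleton.2 hc)
      · right
        obtain ⟨n, a, d, ha, had⟩ := h.exists_pow hc
        have h3 : ((Ideal.Quotient.mk (Ideal.span {x})) c) •
            (Submodule.Quotient.mk v : QuotSMulTop x X) = Submodule.Quotient.mk (c • v) := rfl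
        rw [h3, Submodule.Quotient.mk_eq_zero] at hcv
        obtain ⟨g, -, hg⟩ := (Submodule.mem_smul_pointwise_iff_exists _ _ _).1 hcv
        have key : ∀ (n : ℕ) (v g : X), y ^ n • v = x • g → ∃ w, v = x • w := by
          intro n
          induction n with
          | zero => intro v g hvg; exact ⟨g, by rwa [pow_zero, one_smul] at hvg⟩
          | succ n ih =>
            intro v g hvg
            rw [pow_succ, mul_smul] at hvg
            obtain ⟨w, hw⟩ := ih _ _ hvg
            exact h2 _ _ hw
        obtain ⟨b, hb⟩ := ha.exists_left_inv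
        have h4 : y ^ n • v = x • (b • g - b • (d • v)) := by
          have h5 : b • (c • v) = y ^ n • v + x • (b • (d • v)) := by
            rw [had]
            rw [smul_smul, smul_smul, smul_smul, ← add_smul]
            congr 1
            linear_combination (y ^ n) * hb
          rw [smul_sub, ← smul_comm b x g, hg, h5]
          abel
        obtain ⟨w, hw⟩ := key n _ _ h4
        rw [Submodule.Quotient.mk_eq_zero, hw]
        exact Submodule.smul_mem_pointwise_smul _ _ _ trivial
    exact Module.free_of_finite_type_torsion_free'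

end Two

end two

end Pool.Agent.QU62
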