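import Pool.Agent.Lib.QU62.Base
import Pool.Agent.Lib.QU53.HBase
import Pool.Agent.Lib.QU53.R1

/-!
# The free hull of `M ⧸ u M`
-/

set_option autoImplicit false
set_option linter.unusedSectionVars false

namespace Pool.Agent.QU62

open IsLocalRing Pointwise

universe u w

variable {K R : Type u} [CommRing K] [IsDomain K] [IsNoetherianRing K] [IsLocalRing K]
    [CommRing R] [IsDomain R] [IsNoetherianRing R] [IsLocalRing R] [Algebra K R] {u x y : K}

/-- `M ⧸ u M` embeds in a power of `K ⧸ u`. -/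
theorem exists_emb (hu : Prime u) (M : Type u) [AddCommGroup M] [Module K M]
    [Module.Finite K M] (hM : TF u M) :
    ∃ (n : ℕ) (φ : M →ₗ[K] (Fin n → K ⧸ Ideal.span {u})), ∀ m, φ m = 0 → ∃ m', m = u • m' := by
  have hprime : (Ideal.span {u}).IsPrime := (Ideal.span_singleton_prime hu.ne_zero).2 hu
  have hdom : IsDomain (K ⧸ Ideal.span {u}) := Ideal.Quotient.isDomain _
  have hfin : Module.Finite (K ⧸ Ideal.span {u}) (QuotSMulTop u M) :=
    Module.Finite.of_restrictScalars_finite K (K ⧸ Ideal.span {u}) (QuotSMulTop u M)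
  have hmem : ∀ m : M, (Submodule.Quotient.mk m : QuotSMulTop u M) = 0 ↔ ∃ m', m = u • m' := by
    intro m
    rw [Submodule.Quotient.mk_eq_zero, Submodule.mem_smul_pointwise_iff_exists]
    exact ⟨fun ⟨m', _, h⟩ => ⟨m', h.symm⟩, fun ⟨m', h⟩ => ⟨m', trivial, h.symm⟩⟩
  have htf : ∀ (c : K ⧸ Ideal.span {u}) (q : QuotSMulTop u M), c • q = 0 → c ≠ 0 → q = 0 := by
    intro c q hcq hc
    obtain ⟨c, rfl⟩ := Ideal.Quotient.mk_surjective c
    obtain ⟨m, rfl⟩ := Submodule.Quotient.mk_surjective _ q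
    have h3 : ((Ideal.Quotient.mk (Ideal.span {u})) c) •
        (Submodule.Quotient.mk m : QuotSMulTop u M) = Submodule.Quotient.mk (c • m) := rfl
    rw [h3] at hcq
    obtain ⟨m', hm'⟩ := (hmem _).1 hcq
    refine (hmem _).2 (hM.tf c m m' ?_ hm')
    intro hd
    exact hc (Ideal.Quotient.eq_zero_iff_mem.2 (Ideal.mem_span_singleton.2 hd))
  obtain ⟨k, s, hs, b, hli, hsp⟩ := QU53.exists_HB_of_free
    (nonZeroDivisors (K ⧸ Ideal.span {u})) (zero_notMem_nonZeroDivisors) (QuotSMulTop u M)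
    (by
      have : Module.Free (FractionRing (K ⧸ Ideal.span {u}))
        (LocalizedModule (nonZeroDivisors (K ⧸ Ideal.span {u})) (QuotSMulTop u M)) := inferInstance
      exact this)
  obtain ⟨a, ha, -⟩ := QU53.R1.exists_coords hli hsp
  refine ⟨k, (a.restrictScalars K) ∘ₗ (Submodule.mkQ (u • (⊤ : Submodule K M))), ?_⟩
  intro m hm
  have h1 : a (Submodule.Quotient.mk m) = 0 := hm
  have h2 := ha (Submodule.Quotient.mk m)
  rw [h1] at h2
  have h3 : s • (Submodule.Quotient.mk m : QuotSMulTop u M) = 0 := by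
    rw [h2]
    exact Finset.sum_eq_zero fun i _ => by rw [Pi.zero_apply, zero_smul]
  exact (hmem m).1 (htf s _ h3 (nonZeroDivisors.ne_zero hs))

/-- **A2.** The free hull. -/
theorem exists_phi (h : Ctx K R u x y) (M : Type u) [AddCommGroup M] [Module K M]
    [Module.Finite K M] (hM : TF u M) :
    ∃ (n : ℕ) (φ : M →ₗ[K] (Fin n → R)), Dat u x y M n φ := by
  classical
  obtain ⟨k, Φ, hΦ⟩ := exists_emb h.pu M hM
  -- the isomorphism of `K ⧸ u` with `R`
  let e : (K ⧸ Ideal.span {u}) →ₗ[K] R :=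
    Submodule.liftQ (Ideal.span {u}) (Algebra.linearMap K R) (by
      intro c hc
      rw [LinearMap.mem_ker, Algebra.linearMap_apply]
      exact (h.ker c).2 (Ideal.mem_span_singleton.1 hc))
  have he : ∀ c : K, e (Ideal.Quotient.mk _ c) = algebraMap K R c := fun c => rfl
  have heinj : ∀ c, e c = 0 → c = 0 := by
    intro c hc
    obtain ⟨c, rfl⟩ := Ideal.Quotient.mk_surjective c
    rw [he, h.ker] at hc
    exact Ideal.Quotient.eq_zero_iff_mem.2 (Ideal.mem_span_singleton.2 hc)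
  let Ψ : M →ₗ[K] (Fin k → R) := LinearMap.pi fun i => e ∘ₗ LinearMap.proj i ∘ₗ Φ
  have hΨ0 : ∀ m, Ψ m = 0 → ∃ m', m = u • m' := by
    intro m hm
    apply hΦ
    funext i
    exact heinj _ (congrFun hm i)
  -- the saturation of the range
  let Y : Submodule R (Fin k → R) :=
    { carrier := {f | ∃ m, Ψ m = f}
      add_mem' := by
        rintro _ _ ⟨m, rfl⟩ ⟨m', rfl⟩
        exact ⟨m + m', map_add Ψ m m'⟩
      zero_mem' := ⟨0, map_zero Ψ⟩
      smul_mem' := by
        rintro c _ ⟨m, rfl⟩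
        obtain ⟨c, rfl⟩ := h.surj c
        exact ⟨c • m, by rw [map_smul, algebraMap_smul]⟩ }
  let X := algebraMap K R x
  let Z := algebraMap K R y
  have hup : ∀ {t : R} {f : Fin k → R} {N N' : ℕ}, N ≤ N' → t ^ N • f ∈ Y → t ^ N' • f ∈ Y := by
    intro t f N N' hN hf
    obtain ⟨d, rfl⟩ := Nat.exists_eq_add_of_le hN
    rw [add_comm, pow_add, mul_smul]
    exact Y.smul_mem _ hf
  let Ys : Submodule R (Fin k → R) :=
    { carrier := {f | ∃ N : ℕ, X ^ N • f ∈ Y ∧ Z ^ N • f ∈ Y}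
      add_mem' := by
        rintro f f' ⟨N, h1, h2⟩ ⟨N', h1', h2'⟩
        refine ⟨max N N', ?_, ?_⟩
        · rw [smul_add]
          exact Y.add_mem (hup (le_max_left _ _) h1) (hup (le_max_right _ _) h1')
        · rw [smul_add]
          exact Y.add_mem (hup (le_max_left _ _) h2) (hup (le_max_right _ _) h2')
      zero_mem' := ⟨0, by rw [smul_zero]; exact Y.zero_mem, by rw [smul_zero]; exact Y.zero_mem⟩
      smul_mem' := by
        rintro c f ⟨N, h1, h2⟩
        refine ⟨N, ?_, ?_⟩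
        · rw [smul_comm]
          exact Y.smul_mem _ h1
        · rw [smul_comm]
          exact Y.smul_mem _ h2 }
  have hYs : ∀ f : Fin k → R, f ∈ Ys ↔ ∃ N : ℕ, X ^ N • f ∈ Y ∧ Z ^ N • f ∈ Y := fun f => Iff.rfl
  have hfinY : Module.Finite R Ys := Module.Finite.iff_fg.2 (IsNoetherian.noetherian Ys)
  have hfree : Module.Free R Ys := by
    refine h.two.free ?_ ?_
    · intro v hv
      exact (smul_eq_zero.1 hv).resolve_left h.two.px.ne_zero
    · intro f g hfg
      have h1 : ∀ i, Z * f.1 i = X * g.1 i := fun i =>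
        congrFun (congrArg Subtype.val hfg) i
      have h2 : ∀ i, ∃ v, f.1 i = X * v := by
        intro i
        have h3 : X ^ 1 ∣ Z ^ 1 * f.1 i := by
          rw [pow_one, pow_one]
          exact ⟨_, h1 i⟩
        have h4 := h.two.dvd_of_dvd_mul h3
        rw [pow_one] at h4
        exact h4
      choose v hv using h2
      have hv' : f.1 = X • v := funext hv
      have hg' : g.1 = Z • v := by
        funext i
        have h3 := h1 i
        rw [hv i] at h3
        have h4 : X * g.1 i = X * (Z * v i) := by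
          rw [← h3]
          ring
        exact mul_left_cancel₀ h.two.px.ne_zero h4
      obtain ⟨N, h3, -⟩ := f.2
      obtain ⟨N', -, h4⟩ := g.2
      rw [hv'] at h3
      rw [hg'] at h4
      rw [smul_smul, ← pow_succ] at h3 h4
      refine ⟨⟨v, (hYs v).2 ⟨max (N + 1) (N' + 1), hup (le_max_left _ _) h3,
        hup (le_max_right _ _) h4⟩⟩, Subtype.ext hv'⟩
  obtain ⟨n, ⟨bs⟩⟩ : ∃ n, Nonempty (Module.Basis (Fin n) R Ys) := ⟨_, ⟨Module.finBasis R Ys⟩⟩
  let E : Ys ≃ₗ[R] (Fin n → R) := bs.equivFun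
  have hmY : ∀ m, Ψ m ∈ Ys := fun m => (hYs _).2
    ⟨0, by rw [pow_zero, one_smul]; exact ⟨m, rfl⟩, by rw [pow_zero, one_smul]; exact ⟨m, rfl⟩⟩
  let φ : M →ₗ[K] (Fin n → R) :=
    { toFun := fun m => E ⟨Ψ m, hmY m⟩
      map_add' := by
        intro m m'
        rw [← map_add]
        congr 1
        exact Subtype.ext (map_add Ψ m m')
      map_smul' := by
        intro c m
        rw [RingHom.id_apply, ← algebraMap_smul R c (E ⟨Ψ m, hmY m⟩), ← map_smul]
        congr 1
        apply Subtype.ext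
        change Ψ (c • m) = algebraMap K R c • Ψ m
        rw [map_smul, algebraMap_smul] }
  have hφ : ∀ m, φ m = E ⟨Ψ m, hmY m⟩ := fun m => rfl
  refine ⟨n, φ, ⟨?_, ?_⟩⟩
  · intro m hm
    apply hΨ0
    rw [hφ] at hm
    exact congrArg Subtype.val (E.map_eq_zero_iff.1 hm)
  · intro f
    obtain ⟨N, ⟨m1, hm1⟩, ⟨m2, hm2⟩⟩ := (E.symm f).2
    refine ⟨N, ⟨m1, ?_⟩, ⟨m2, ?_⟩⟩
    · rw [hφ]
      have h1 : (⟨Ψ m1, hmY m1⟩ : Ys) = X ^ N • E.symm f := Subtype.ext hm1
      rw [h1, map_smul, E.apply_symm_apply, ← algebraMap_smul R (x ^ N) f, map_pow]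
    · rw [hφ]
      have h1 : (⟨Ψ m2, hmY m2⟩ : Ys) = Z ^ N • E.symm f := Subtype.ext hm2
      rw [h1, map_smul, E.apply_symm_apply, ← algebraMap_smul R (y ^ N) f, map_pow]

end Pool.Agent.QU62
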