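import Pool.Agent.Lib.QU62.Base

/-!
# Extension of maps into `R` across submodules of finite colength
-/

set_option autoImplicit false
set_option linter.unusedSectionVars false

namespace Pool.Agent.QU62

open IsLocalRing

universe u w

variable {K R : Type u} [CommRing K] [IsDomain K] [IsNoetherianRing K] [IsLocalRing K]
    [CommRing R] [IsDomain R] [IsNoetherianRing R] [IsLocalRing R] [Algebra K R] {u x y : K}

/-- **A3.** -/
theorem exists_ext (h : Ctx K R u x y) {A B : Type w} [AddCommGroup A] [Module K A]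
    [AddCommGroup B] [Module K B] (α : A →ₗ[K] B) (hα : Function.Injective α)
    (hc : Cof x y (LinearMap.range α)) (g : A →ₗ[K] R) :
    ∃ g' : B →ₗ[K] R, g' ∘ₗ α = g := by
  have hx0 : algebraMap K R x ≠ 0 := h.two.px.ne_zero
  have hsm : ∀ (N : ℕ) (r : R), x ^ N • r = algebraMap K R x ^ N * r := by
    intro N r
    rw [Algebra.smul_def, map_pow]
  have hcanc : ∀ (N : ℕ) (r r' : R), x ^ N • r = x ^ N • r' → r = r' := by
    intro N r r' hr
    rw [hsm, hsm] at hr
    exact mul_left_cancel₀ (pow_ne_zero _ hx0) hr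
  have key : ∀ b : B, ∃ (N : ℕ) (a : A) (r : R), α a = x ^ N • b ∧ g a = x ^ N • r := by
    intro b
    obtain ⟨N, ⟨a1, ha1⟩, ⟨a2, ha2⟩⟩ := hc b
    have h1 : y ^ N • a1 = x ^ N • a2 := by
      apply hα
      rw [map_smul, map_smul, ha1, ha2, smul_comm]
    have h2 : algebraMap K R x ^ N ∣ algebraMap K R y ^ N * g a1 := by
      refine ⟨g a2, ?_⟩
      have h3 := congrArg g h1
      rw [map_smul, map_smul, hsm, Algebra.smul_def, map_pow] at h3
      exact h3
    obtain ⟨r, hr⟩ := h.two.dvd_of_dvd_mul h2
    exact ⟨N, a1, r, ha1, by rw [hr, hsm]⟩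
  choose N a r h1 h2 using key
  have uniq : ∀ (b : B) (n : ℕ) (a' : A) (r' : R), α a' = x ^ n • b → g a' = x ^ n • r' →
      r b = r' := by
    intro b n a' r' h3 h4
    have h5 : x ^ n • a b = x ^ (N b) • a' := by
      apply hα
      rw [map_smul, map_smul, h1, h3, smul_comm]
    have h6 := congrArg g h5
    rw [map_smul, map_smul, h2, h4, smul_smul, smul_smul, ← pow_add, ← pow_add,
      add_comm (N b) n] at h6
    exact hcanc _ _ _ h6
  refine ⟨{ toFun := r
            map_add' := ?_
            map_smul' := ?_ }, ?_⟩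
  · intro b b'
    refine uniq (b + b') (N b + N b') (x ^ N b' • a b + x ^ N b • a b') _ ?_ ?_
    · rw [map_add, map_smul, map_smul, h1, h1, smul_smul, smul_smul, ← pow_add, ← pow_add,
        smul_add, add_comm (N b') (N b)]
    · rw [map_add, map_smul, map_smul, h2, h2, smul_smul, smul_smul, ← pow_add, ← pow_add,
        smul_add, add_comm (N b') (N b)]
  · intro c b
    refine uniq (c • b) (N b) (c • a b) _ ?_ ?_
    · rw [map_smul, h1, smul_comm]
    · rw [map_smul, h2, RingHom.id_apply, smul_comm]
  · apply LinearMap.ext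
    intro a'
    refine uniq (α a') 0 a' _ ?_ ?_
    · rw [pow_zero, one_smul]
    · rw [pow_zero, one_smul]

/-- Two maps into `R` which agree on a submodule of finite colength are equal. -/
theorem ext_unique (h : Ctx K R u x y) {B : Type w} [AddCommGroup B] [Module K B]
    {Y : Submodule K B} (hc : Cof x y Y) (g g' : B →ₗ[K] R) (hg : ∀ b ∈ Y, g b = g' b) :
    g = g' := by
  have hx0 : algebraMap K R x ≠ 0 := h.two.px.ne_zero
  apply LinearMap.ext
  intro b
  obtain ⟨N, hN, -⟩ := hc b
  have h1 := hg _ hN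
  rw [map_smul, map_smul, Algebra.smul_def, Algebra.smul_def, map_pow] at h1
  exact mul_left_cancel₀ (pow_ne_zero _ hx0) h1

end Pool.Agent.QU62
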