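import Pool.Agent.Lib.QU74.C1Final
import Pool.Agent.Lib.QU74.B
import Pool.Agent.Lib.QU94.A4E
import Pool.Agent.Lib.QU53.Defs

/-!
# Gabber's theorem in dimension three: the chain
-/

set_option autoImplicit false
set_option linter.unusedSectionVars false

namespace Pool.Agent.QU62

open IsLocalRing

universe u w

/-- `M` is projective up to `u ^ k`. -/
def PJ {K : Type u} [CommRing K] (u : K) (k : ℕ) (M : Type w) [AddCommGroup M] [Module K M] :
    Prop :=
  ∃ (s : ℕ) (p : Fin s → M) (χ : Fin s → M →ₗ[K] K), ∀ m : M, u ^ k • m = ∑ l, χ l m • p l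

theorem PJ.sub {K : Type u} [CommRing K] {u : K} {k t : ℕ} {M N : Type w} [AddCommGroup M]
    [Module K M] [AddCommGroup N] [Module K N] (f : N →ₗ[K] M) (hf : Function.Injective f)
    (ht : ∀ m : M, ∃ v : N, f v = u ^ t • m) (h : PJ u k M) : PJ u (k + t) N := by
  obtain ⟨s, p, χ, hp⟩ := h
  choose q hq using fun l => ht (p l)
  refine ⟨s, q, fun l => χ l ∘ₗ f, fun v => hf ?_⟩
  rw [map_smul, map_sum, add_comm k t, pow_add, mul_smul, hp, Finset.smul_sum]
  refine Finset.sum_congr rfl fun l _ => ?_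
  rw [map_smul, hq, smul_comm]
  rfl

theorem hb_sub {K : Type u} [CommRing K] {u : K} {b c t : ℕ} {M N : Type u} [AddCommGroup M]
    [Module K M] [AddCommGroup N] [Module K N] (f : N →ₗ[K] M) (hf : Function.Injective f)
    (ht : ∀ m : M, ∃ v : N, f v = u ^ t • m) (h : QU53.HB K N b (u ^ c)) :
    QU53.HB K M b (u ^ (c + t)) := by
  obtain ⟨e, he, hs⟩ := h
  refine ⟨fun i => f (e i), he.map' f (LinearMap.ker_eq_bot.2 hf), fun m => ?_⟩
  obtain ⟨v, hv⟩ := ht m
  rw [pow_add, mul_smul, ← hv, ← map_smul]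
  have h1 := Submodule.mem_map_of_mem (f := f) (hs v)
  rw [Submodule.map_span, ← Set.range_comp] at h1
  exact h1

variable {K R : Type u} [CommRing K] [IsDomain K] [IsNoetherianRing K] [IsLocalRing K]
    [CommRing R] [IsDomain R] [IsNoetherianRing R] [IsLocalRing R] [Algebra K R] {u x y : K}

theorem Ctx.u_smul (h : Ctx K R u x y) {n : ℕ} (g : Fin n → R) : u • g = 0 := by
  funext i
  rw [Pi.smul_apply, Algebra.smul_def, (h.ker u).2 dvd_rfl, zero_mul]
  rfl

theorem tf_of_dat (h : Ctx K R u x y) {M : Type u} [AddCommGroup M] [Module K M] {n : ℕ}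
    {φ : M →ₗ[K] (Fin n → R)} (hφ : Dat u x y M n φ) (hreg : ∀ m : M, u • m = 0 → m = 0) :
    TF u M := by
  refine ⟨hreg, fun c m m' hc hcm => ?_⟩
  apply hφ.ker
  have h1 := congrArg φ hcm
  rw [map_smul, map_smul, h.u_smul] at h1
  funext i
  have h2 := congrFun h1 i
  rw [Pi.smul_apply, Algebra.smul_def, Pi.zero_apply, mul_eq_zero, h.ker] at h2
  exact h2.resolve_left hc

/-- A state of the chain. -/
structure St (K R : Type u) [CommRing K] [CommRing R] [Algebra K R] (M : Type u) [AddCommGroup M]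
    [Module K M] (n : ℕ) where
  N : Submodule K M
  φ : N →ₗ[K] (Fin (n + 1) → R)

/-- A good state. -/
structure Good (u x y : K) {M : Type u} [AddCommGroup M] [Module K M] {n : ℕ}
    (φ₀ : M →ₗ[K] R) (S : St K R M n) : Prop where
  dat : Dat u x y S.N (n + 1) S.φ
  zero : ∀ m : S.N, S.φ m 0 = φ₀ m
  pow : ∃ t : ℕ, ∀ m : M, u ^ t • m ∈ S.N

/-- A step of the chain. -/
structure Tr (u : K) {M : Type u} [AddCommGroup M] [Module K M] {n : ℕ} (S S' : St K R M n) :
    Prop where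
  le : S'.N ≤ S.N
  mem : ∀ (m : M) (hm : m ∈ S.N), m ∈ S'.N ↔ ∀ i : Fin n, S.φ ⟨m, hm⟩ i.succ = 0
  comp : ∀ (m : S.N) (hm : u • (m : M) ∈ S'.N) (i : Fin n),
    S'.φ ⟨u • (m : M), hm⟩ i.succ = S.φ m i.succ

theorem no_chain (h : Ctx K R u x y) (M : Type u) [AddCommGroup M] [Module K M]
    [Module.Finite K M] (hreg : ∀ m : M, u • m = 0 → m = 0) {n : ℕ} (φ₀ : M →ₗ[K] R) (k : ℕ)
    (hproj : PJ u k M) (s : ℕ → St K R M n) (hs : ∀ j, Good u x y φ₀ (s j))
    (hT : ∀ j, Tr u (s j) (s (j + 1))) :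
    ∃ (m : M) (hm : m ∈ (s 0).N), φ₀ m = 1 ∧ ∀ i : Fin n, (s 0).φ ⟨m, hm⟩ i.succ = 0 := by
  classical
  have hx0 : algebraMap K R x ≠ 0 := h.two.px.ne_zero
  have hNoeM : IsNoetherian K M := isNoetherian_of_isNoetherianRing_of_finite K M
  have hNoeR : IsNoetherian K R := isNoetherian_of_surjective (Algebra.linearMap K R)
    (LinearMap.range_eq_top.2 h.surj)
  -- `u` moves one step on
  have hstep : ∀ (j : ℕ) (m : M), m ∈ (s j).N → u • m ∈ (s (j + 1)).N := by
    intro j m hm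
    have h1 : u • m ∈ (s j).N := Submodule.smul_mem _ _ hm
    refine ((hT j).mem _ h1).2 fun i => ?_
    have h2 : (s j).φ ⟨u • m, h1⟩ = u • (s j).φ ⟨m, hm⟩ := by
      rw [← map_smul]
      rfl
    rw [h2, h.u_smul]
    rfl
  have hiter : ∀ (j i : ℕ) (m : M) (hm : m ∈ (s j).N), ∃ hm' : u ^ i • m ∈ (s (j + i)).N,
      ∀ l : Fin n, (s (j + i)).φ ⟨u ^ i • m, hm'⟩ l.succ = (s j).φ ⟨m, hm⟩ l.succ := by
    intro j i
    induction i with
    | zero =>
      intro m hm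
      have h3 : u ^ 0 • m = m := by rw [pow_zero, one_smul]
      refine ⟨by rw [h3]; exact hm, fun l => ?_⟩
      exact congrArg (fun v => (s j).φ v l.succ) (Subtype.ext h3)
    | succ i ih =>
      intro m hm
      obtain ⟨hm', h1⟩ := ih m hm
      have h2 := hstep _ _ hm'
      have h3 : u ^ (i + 1) • m = u • (u ^ i • m) := by rw [pow_succ', mul_smul]
      refine ⟨by rw [h3]; exact h2, fun l => ?_⟩
      have h4 := (hT (j + i)).comp ⟨u ^ i • m, hm'⟩ h2 l
      rw [h1] at h4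
      rw [← h4]
      exact congrArg (fun v => (s (j + i + 1)).φ v l.succ) (Subtype.ext h3)
  have hanti : ∀ j i : ℕ, (s (j + i)).N ≤ (s j).N := by
    intro j i
    induction i with
    | zero => exact le_rfl
    | succ i ih => exact (hT (j + i)).le.trans ih
  -- the images stabilise
  let tail : (Fin (n + 1) → R) →ₗ[K] (Fin n → R) := LinearMap.funLeft K R Fin.succ
  have htail : ∀ g i, tail g i = g i.succ := fun g i => rfl
  let J : ℕ → Submodule K (Fin n → R) := fun j => LinearMap.range (tail ∘ₗ (s j).φ)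
  have hJ : Monotone J := by
    refine monotone_nat_of_le_succ fun j => ?_
    rintro _ ⟨m, rfl⟩
    refine ⟨⟨u • (m : M), hstep j m m.2⟩, ?_⟩
    funext i
    exact (hT j).comp m (hstep j m m.2) i
  obtain ⟨j₀, hj₀⟩ := monotone_stabilizes_iff_noetherian.2
    (inferInstance : IsNoetherian K (Fin n → R)) ⟨J, hJ⟩
  obtain ⟨t, ht⟩ := (hs j₀).pow
  have hTF : TF u (s j₀).N := tf_of_dat h (hs j₀).dat fun m hm => Subtype.ext (hreg m
    (congrArg Subtype.val hm))
  have hPJ : PJ u (k + t) (s j₀).N :=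
    hproj.sub (s j₀).N.subtype (Submodule.subtype_injective _) fun m => ⟨⟨_, ht m⟩, rfl⟩
  have hfin : Module.Finite K (s j₀).N := Module.Finite.iff_fg.2 (IsNoetherian.noetherian _)
  set k' := k + t with hk'
  let A : Submodule K (s j₀).N := (s (j₀ + k' + 1)).N.comap (s j₀).N.subtype
  have hAmem : ∀ a : (s j₀).N, a ∈ A ↔ (a : M) ∈ (s (j₀ + k' + 1)).N := fun a => Iff.rfl
  -- the key property
  have hA : ∀ a ∈ A, (φ₀ ∘ₗ (s j₀).N.subtype) a = 0 →
      ∃ m₀ : (s j₀).N, ∃ a' ∈ A, a = u ^ (k' + 1) • m₀ + u • a' := by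
    intro a ha h0
    have h0' : φ₀ (a : M) = 0 := h0
    have ha0 := (hAmem a).1 ha
    have ha1 : (a : M) ∈ (s (j₀ + k')).N := (hT (j₀ + k')).le ha0
    have ha2 := ((hT (j₀ + k')).mem _ ha1).1 ha0
    have ha3 : (s (j₀ + k')).φ ⟨a, ha1⟩ = 0 := by
      funext i
      refine Fin.cases ?_ (fun i => ?_) i
      · rw [(hs _).zero]
        exact h0'
      · exact ha2 i
    obtain ⟨m₁, hm₁⟩ := (hs _).dat.ker _ ha3
    have h1 : (tail ∘ₗ (s (j₀ + k')).φ) m₁ ∈ J j₀ := by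
      have h2 : J j₀ = J (j₀ + k') := hj₀ (j₀ + k') (Nat.le_add_right _ _)
      rw [h2]
      exact ⟨m₁, rfl⟩
    obtain ⟨m₀, hm₀⟩ := h1
    obtain ⟨hm', h3⟩ := hiter j₀ k' m₀ m₀.2
    have h4 : (m₁ : M) - u ^ k' • (m₀ : M) ∈ (s (j₀ + k')).N := sub_mem m₁.2 hm'
    have h5 : (m₁ : M) - u ^ k' • (m₀ : M) ∈ (s (j₀ + k' + 1)).N := by
      refine ((hT (j₀ + k')).mem _ h4).2 fun i => ?_
      have h6 : (s (j₀ + k')).φ ⟨(m₁ : M) - u ^ k' • (m₀ : M), h4⟩ =
          (s (j₀ + k')).φ m₁ - (s (j₀ + k')).φ ⟨u ^ k' • (m₀ : M), hm'⟩ := by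
        rw [← map_sub]
        rfl
      rw [h6, Pi.sub_apply, h3 i]
      have h7 := congrFun hm₀ i
      rw [sub_eq_zero]
      exact h7.symm
    have h5' : (m₁ : M) - u ^ k' • (m₀ : M) ∈ (s j₀).N :=
      hanti j₀ (k' + 1) (by rw [← add_assoc]; exact h5)
    refine ⟨m₀, ⟨_, h5'⟩, h5, Subtype.ext ?_⟩
    have h8 : (a : M) = u • (m₁ : M) := congrArg Subtype.val hm₁
    change (a : M) = u ^ (k' + 1) • (m₀ : M) + u • ((m₁ : M) - u ^ k' • (m₀ : M))
    rw [h8, smul_sub, smul_smul, ← pow_succ']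
    abel
  -- elements over the powers of `x` and `y`
  obtain ⟨N, ⟨ax, hax⟩, ⟨ay, hay⟩⟩ := (hs (j₀ + k' + 1)).dat.cof (Pi.single 0 1)
  have hmemA : ∀ v : (s (j₀ + k' + 1)).N, (v : M) ∈ (s j₀).N := fun v =>
    hanti j₀ (k' + 1) (by rw [← add_assoc]; exact v.2)
  have hx : ∃ a ∈ A, (φ₀ ∘ₗ (s j₀).N.subtype) a = algebraMap K R x ^ N := by
    refine ⟨⟨ax, hmemA ax⟩, ax.2, ?_⟩
    change φ₀ (ax : M) = _
    rw [← (hs _).zero, hax, Pi.smul_apply, Pi.single_eq_same, Algebra.smul_def, map_pow, mul_one]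
  have hy : ∃ a ∈ A, (φ₀ ∘ₗ (s j₀).N.subtype) a = algebraMap K R y ^ N := by
    refine ⟨⟨ay, hmemA ay⟩, ay.2, ?_⟩
    change φ₀ (ay : M) = _
    rw [← (hs _).zero, hay, Pi.smul_apply, Pi.single_eq_same, Algebra.smul_def, map_pow, mul_one]
  obtain ⟨a, m₁, m₂, X, β, haA, ha0, ha, hβ, hX⟩ := limit_core h (s j₀).N hTF k' hPJ
    (φ₀ ∘ₗ (s j₀).N.subtype) A hA N hx hy
  obtain ⟨β', rfl⟩ := h.surj β
  have ha1 : (a : M) ∈ (s (j₀ + 1)).N := by
    have h1 := hanti (j₀ + 1) k'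
    apply h1
    have h2 : j₀ + 1 + k' = j₀ + k' + 1 := by omega
    rw [h2]
    exact haA
  have ha2 := ((hT j₀).mem _ a.2).1 ha1
  have hφa : ∀ i, (s j₀).φ a i = algebraMap K R x ^ N * (s j₀).φ (β' • m₁) i := by
    intro i
    rw [ha, map_add, map_smul, map_smul, h.u_smul, add_zero, Pi.smul_apply, Algebra.smul_def, hX,
      map_smul, Pi.smul_apply, Algebra.smul_def]
    ring
  have hxN : algebraMap K R x ^ N ≠ 0 := pow_ne_zero _ hx0
  have hb0 : φ₀ ((β' • m₁ : (s j₀).N) : M) = 1 := by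
    rw [← (hs j₀).zero]
    have h1 := hφa 0
    rw [(hs j₀).zero] at h1
    have h2 : φ₀ (a : M) = algebraMap K R x ^ N := ha0
    rw [h2] at h1
    exact (mul_right_eq_self₀.1 h1.symm).resolve_right hxN
  have hb1 : ((β' • m₁ : (s j₀).N) : M) ∈ (s (j₀ + 1)).N := by
    refine ((hT j₀).mem _ (β' • m₁).2).2 fun i => ?_
    have h1 := hφa i.succ
    have h2 : (s j₀).φ a i.succ = 0 := ha2 i
    rw [h2] at h1
    exact (mul_eq_zero.1 h1.symm).resolve_left hxN
  have hb2 : ((β' • m₁ : (s j₀).N) : M) ∈ (s 1).N := by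
    have h1 := hanti 1 j₀
    rw [add_comm 1 j₀] at h1
    exact h1 hb1
  have hb3 : ((β' • m₁ : (s j₀).N) : M) ∈ (s 0).N := (hT 0).le hb2
  exact ⟨_, hb3, hb0, ((hT 0).mem _ hb3).1 hb2⟩


theorem Cof.equiv {n : ℕ} {M : Type u} [AddCommGroup M] [Module K M] {φ : M →ₗ[K] (Fin n → R)}
    (e : (Fin n → R) ≃ₗ[K] (Fin n → R)) (hφ : Cof x y (LinearMap.range φ)) :
    Cof x y (LinearMap.range (e.toLinearMap ∘ₗ φ)) := by
  intro f
  obtain ⟨N, ⟨a, ha⟩, ⟨b, hb⟩⟩ := hφ (e.symm f)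
  refine ⟨N, ⟨a, ?_⟩, ⟨b, ?_⟩⟩
  · change e (φ a) = _
    rw [ha, map_smul, e.apply_symm_apply]
  · change e (φ b) = _
    rw [hb, map_smul, e.apply_symm_apply]

theorem Dat.equiv {n : ℕ} {M : Type u} [AddCommGroup M] [Module K M] {φ : M →ₗ[K] (Fin n → R)}
    (e : (Fin n → R) ≃ₗ[K] (Fin n → R)) (hφ : Dat u x y M n φ) :
    Dat u x y M n (e.toLinearMap ∘ₗ φ) := by
  refine ⟨fun m hm => hφ.ker m ?_, hφ.cof.equiv e⟩
  exact e.map_eq_zero_iff.1 hm

theorem colen_equiv {n : ℕ} {M : Type u} [AddCommGroup M] [Module K M] {φ : M →ₗ[K] (Fin n → R)}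
    (e : (Fin n → R) ≃ₗ[K] (Fin n → R)) : colen (e.toLinearMap ∘ₗ φ) = colen φ := by
  refine (LinearEquiv.length_eq (Submodule.Quotient.equiv (LinearMap.range φ) _ e ?_)).symm
  rw [LinearMap.range_comp]

theorem exists_HB_aux (h : Ctx K R u x y) : ∀ (ℓ : ℕ) (M : Type u) [AddCommGroup M] [Module K M]
    [Module.Finite K M], (∀ m : M, u • m = 0 → m = 0) → ∀ k : ℕ, PJ u k M →
    ∀ (n : ℕ) (φ : M →ₗ[K] (Fin n → R)), Dat u x y M n φ → colen φ = ℓ →
    ∃ b c : ℕ, QU53.HB K M b (u ^ c) := by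
  classical
  intro ℓ
  induction ℓ using Nat.strong_induction_on with
  | _ ℓ ih =>
  intro M _ _ _ hreg k hPJ n φ hφ hℓ
  by_cases h0 : LinearMap.range φ = ⊤
  · have hfree : Module.Free K M := free_of_colen_zero h M (tf_of_dat h hφ hreg) φ hφ h0
    refine ⟨Module.finrank K M, 0, Module.finBasis K M, (Module.finBasis K M).linearIndependent,
      fun q => ?_⟩
    rw [(Module.finBasis K M).span_eq]
    trivial
  -- a basis vector which is not in the range
  obtain ⟨i, hi⟩ : ∃ i : Fin n, (Pi.single i 1 : Fin n → R) ∉ LinearMap.range φ := by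
    by_contra hcon
    push Not at hcon
    apply h0
    rw [eq_top_iff]
    intro f _
    choose c hc using fun i => h.surj (f i)
    have h1 : f = ∑ i, c i • (Pi.single i 1 : Fin n → R) := by
      funext j
      rw [Finset.sum_apply, Finset.sum_eq_single j]
      · rw [Pi.smul_apply, Pi.single_eq_same, Algebra.smul_def, mul_one, hc]
      · intro b _ hb
        rw [Pi.smul_apply, Pi.single_eq_of_ne hb.symm, smul_zero]
      · intro hj
        exact absurd (Finset.mem_univ _) hj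
    rw [h1]
    exact sum_mem fun i _ => Submodule.smul_mem _ _ (hcon i)
  obtain ⟨n, rfl⟩ : ∃ n', n = n' + 1 := ⟨n - 1, by have := i.pos; omega⟩
  -- permute the coordinates
  let e : (Fin (n + 1) → R) ≃ₗ[K] (Fin (n + 1) → R) := LinearEquiv.funCongrLeft K R (Equiv.swap 0 i)
  have he : ∀ f j, e f j = f (Equiv.swap 0 i j) := fun f j => rfl
  set φ' := e.toLinearMap ∘ₗ φ with hφ'
  have hd' : Dat u x y M (n + 1) φ' := hφ.equiv e
  have hc' : colen φ' = ℓ := (colen_equiv e).trans hℓ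
  have hi' : (Pi.single 0 1 : Fin (n + 1) → R) ∉ LinearMap.range φ' := by
    rintro ⟨m, hm⟩
    apply hi
    refine ⟨m, ?_⟩
    funext j
    have h1 := congrFun hm (Equiv.swap 0 i j)
    have h2 : φ' m (Equiv.swap 0 i j) = φ m j := by
      change e (φ m) (Equiv.swap 0 i j) = _
      rw [he, Equiv.swap_apply_self]
    rw [h2] at h1
    rw [h1]
    by_cases hj : j = i
    · rw [hj, Equiv.swap_apply_right, Pi.single_eq_same, Pi.single_eq_same]
    · rw [Pi.single_eq_of_ne hj, Pi.single_eq_of_ne]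
      intro h3
      apply hj
      have h4 := congrArg (Equiv.swap 0 i) h3
      rw [Equiv.swap_apply_self, Equiv.swap_apply_left] at h4
      exact h4
  by_contra hno
  let φ₀ : M →ₗ[K] R := LinearMap.proj 0 ∘ₗ φ'
  have hNoeM : IsNoetherian K M := isNoetherian_of_isNoetherianRing_of_finite K M
  let P : St K R M n → Prop := fun S => Good u x y φ₀ S ∧ colen S.φ ≤ ℓ
  have hex : ∀ S, P S → ∃ S', P S' ∧ Tr u S S' := by
    rintro S ⟨hS, hSℓ⟩
    obtain ⟨t, ht⟩ := hS.pow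
    have hfin : Module.Finite K S.N := Module.Finite.iff_fg.2 (IsNoetherian.noetherian _)
    have hregS : ∀ m : S.N, u • m = 0 → m = 0 := fun m hm => Subtype.ext (hreg m
      (congrArg Subtype.val hm))
    let ψ : S.N →ₗ[K] (Fin n → R) := LinearMap.funLeft K R Fin.succ ∘ₗ S.φ
    have hψ : ∀ m i, ψ m i = S.φ m i.succ := fun m i => rfl
    have hker : ∀ m : S.N, u • m ∈ LinearMap.ker ψ := by
      intro m
      rw [LinearMap.mem_ker, map_smul, h.u_smul]
    rcases step h S.N (tf_of_dat h hS.dat hregS) S.φ hS.dat (φ₀ ∘ₗ S.N.subtype)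
      (fun m => (hS.zero m).symm) ψ hψ with h1 | h1
    · exfalso
      obtain ⟨n', φ'', hd, hlt⟩ := h1
      have hlt' : colen φ'' < ℓ := hlt.trans_le hSℓ
      obtain ⟨ℓ', hℓ'⟩ := ENat.ne_top_iff_exists.1 hlt'.ne_top
      have hinj : Function.Injective (S.N.subtype ∘ₗ (LinearMap.ker ψ).subtype) :=
        (Submodule.subtype_injective _).comp (Submodule.subtype_injective _)
      have hpow : ∀ m : M, ∃ v : LinearMap.ker ψ,
          (S.N.subtype ∘ₗ (LinearMap.ker ψ).subtype) v = u ^ (t + 1) • m := by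
        intro m
        refine ⟨⟨u • ⟨u ^ t • m, ht m⟩, hker _⟩, ?_⟩
        change u • (u ^ t • m) = _
        rw [smul_smul, ← pow_succ']
      have hfin' : Module.Finite K (LinearMap.ker ψ) :=
        Module.Finite.iff_fg.2 (IsNoetherian.noetherian _)
      obtain ⟨b, c, hbc⟩ := ih ℓ' (by rw [← hℓ'] at hlt'; exact_mod_cast hlt') (LinearMap.ker ψ)
        (fun m hm => Subtype.ext (hregS m (congrArg Subtype.val hm))) _
        (hPJ.sub _ hinj hpow) n' φ'' hd hℓ'.symm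
      exact hno ⟨b, _, hb_sub _ hinj hpow hbc⟩
    · obtain ⟨φ'', hd, hle, hz, hcomp⟩ := h1
      let E := Submodule.equivSubtypeMap S.N (LinearMap.ker ψ)
      have hE : ∀ v, ((E v : (LinearMap.ker ψ).map S.N.subtype) : M) = (v : S.N) := fun v => rfl
      refine ⟨⟨(LinearMap.ker ψ).map S.N.subtype, φ'' ∘ₗ E.symm.toLinearMap⟩, ⟨⟨⟨?_, ?_⟩, ?_, ?_⟩,
        ?_⟩, ⟨?_, ?_, ?_⟩⟩
      · intro m hm
        obtain ⟨m', hm'⟩ := hd.ker (E.symm m) hm
        refine ⟨E m', ?_⟩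
        rw [← map_smul, ← hm', E.apply_symm_apply]
      · intro f
        obtain ⟨N, ⟨a, ha⟩, ⟨b, hb⟩⟩ := hd.cof f
        refine ⟨N, ⟨E a, ?_⟩, ⟨E b, ?_⟩⟩
        · change φ'' (E.symm (E a)) = _
          rw [E.symm_apply_apply, ha]
        · change φ'' (E.symm (E b)) = _
          rw [E.symm_apply_apply, hb]
      · intro m
        obtain ⟨v, rfl⟩ := E.surjective m
        change φ'' (E.symm (E v)) 0 = _
        rw [E.symm_apply_apply, hz]
        rfl
      · refine ⟨t + 1, fun m => ⟨u • ⟨u ^ t • m, ht m⟩, hker _, ?_⟩⟩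
        change u • (u ^ t • m) = _
        rw [smul_smul, ← pow_succ']
      · refine le_trans (le_of_eq ?_) (hle.trans hSℓ)
        have h2 : LinearMap.range (φ'' ∘ₗ E.symm.toLinearMap) = LinearMap.range φ'' := by
          rw [LinearMap.range_comp, LinearEquiv.range, Submodule.map_top]
        unfold colen
        rw [h2]
      · exact Submodule.map_subtype_le _ _
      · intro m hm
        constructor
        · rintro ⟨v, hv, hvm⟩ i
          have h2 : v = ⟨m, hm⟩ := Subtype.ext hvm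
          rw [← h2]
          exact congrFun (LinearMap.mem_ker.1 hv) i
        · intro h2
          exact ⟨⟨m, hm⟩, LinearMap.mem_ker.2 (funext h2), rfl⟩
      · intro m hm i
        have h2 : E ⟨u • m, hker m⟩ = ⟨u • (m : M), hm⟩ := rfl
        change φ'' (E.symm ⟨u • (m : M), hm⟩) i.succ = _
        rw [← h2, E.symm_apply_apply]
        exact hcomp m (hker m) i
  -- the first state
  let S₀ : St K R M n := ⟨⊤, φ' ∘ₗ (⊤ : Submodule K M).subtype⟩
  have hS₀ : P S₀ := by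
    refine ⟨⟨⟨?_, ?_⟩, fun m => rfl, ⟨0, fun m => trivial⟩⟩, ?_⟩
    · intro m hm
      obtain ⟨m', hm'⟩ := hd'.ker (m : M) hm
      exact ⟨⟨m', trivial⟩, Subtype.ext hm'⟩
    · intro f
      obtain ⟨N, ⟨a, ha⟩, ⟨b, hb⟩⟩ := hd'.cof f
      exact ⟨N, ⟨⟨a, trivial⟩, ha⟩, ⟨⟨b, trivial⟩, hb⟩⟩
    · refine le_of_eq ?_
      have h2 : LinearMap.range (φ' ∘ₗ (⊤ : Submodule K M).subtype) = LinearMap.range φ' := by
        rw [LinearMap.range_comp, Submodule.range_subtype, Submodule.map_top]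
      rw [← hc']
      change Module.length K ((Fin (n + 1) → R) ⧸ LinearMap.range (φ' ∘ₗ (⊤ : Submodule K M).subtype)) = _
      unfold colen
      rw [h2]
  choose f hf using hex
  let seq : ℕ → {S // P S} := fun j => Nat.rec ⟨S₀, hS₀⟩ (fun _ S => ⟨f S.1 S.2, (hf S.1 S.2).1⟩) j
  have hseq : ∀ j, Tr u (seq j).1 (seq (j + 1)).1 := fun j => (hf (seq j).1 (seq j).2).2
  obtain ⟨m, hm, hm1, hm2⟩ := no_chain h M hreg φ₀ k hPJ (fun j => (seq j).1)
    (fun j => (seq j).2.1) hseq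
  apply hi'
  refine ⟨m, ?_⟩
  funext j
  refine Fin.cases ?_ (fun j => ?_) j
  · rw [Pi.single_eq_same]
    exact hm1
  · rw [Pi.single_eq_of_ne (Fin.succ_ne_zero j)]
    exact hm2 j

/-- **D.** -/
theorem exists_HB (h : Ctx K R u x y) (M : Type u) [AddCommGroup M] [Module K M]
    [Module.Finite K M] (hM : TF u M) (k : ℕ)
    (hproj : ∃ (s : ℕ) (p : Fin s → M) (χ : Fin s → M →ₗ[K] K),
      ∀ m : M, u ^ k • m = ∑ l, χ l m • p l) :
    ∃ b c : ℕ, QU53.HB K M b (u ^ c) := by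
  obtain ⟨n, φ, hφ⟩ := exists_phi h M hM
  have hfinR : Module.Finite K R := Module.Finite.of_surjective (Algebra.linearMap K R) h.surj
  have h1 : colen φ ≠ ⊤ := by
    refine finite_length h _ (fun q => ?_) (fun q => ?_)
    · obtain ⟨f, rfl⟩ := Submodule.Quotient.mk_surjective _ q
      refine ⟨1, ?_⟩
      rw [pow_one, ← Submodule.Quotient.mk_smul, h.u_smul, Submodule.Quotient.mk_zero]
    · obtain ⟨f, rfl⟩ := Submodule.Quotient.mk_surjective _ q
      obtain ⟨N, hx, hy⟩ := hφ.cof f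
      refine ⟨N, ?_, ?_⟩
      · rw [← Submodule.Quotient.mk_smul, Submodule.mem_bot, Submodule.Quotient.mk_eq_zero]
        exact hx
      · rw [← Submodule.Quotient.mk_smul, Submodule.mem_bot, Submodule.Quotient.mk_eq_zero]
        exact hy
  obtain ⟨ℓ, hℓ⟩ := ENat.ne_top_iff_exists.1 h1
  exact exists_HB_aux h ℓ M hM.reg k hproj n φ hφ hℓ.symm

end Pool.Agent.QU62
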